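import Pool.Agent.Q252.PBL.Main

/-! Order continuous functionals on projective Banach lattices are determined by the atoms. -/

namespace Pool.Agent.Results.MP_100021_an.DeterminedByAtoms

open Topology Filter
open Pool.Agent.Q195.BL
open Pool.Agent.Q252.PBL

universe u

/-- Every order continuous functional on a projective Banach lattice that vanishes at all atoms
is zero. -/
theorem result (X : Type u) [NormedAddCommGroup X] [NormedSpace ℝ X] [Lattice X]
    [IsBanachLattice X] (hX : Projective.{u, u} X) (f : X →L[ℝ] ℝ) (hf : IsOrdCont f)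
    (ha : ∀ a : X, IsAtm a → f a = 0) : f = 0 := by
  obtain ⟨F, h1, h2, h3, h4⟩ := rep hX
  have hmain : ∀ x, 0 ≤ x → f x = 0 := by
    intro x hx
    have h5 := main F h1 h2 h3 h4 (mf_G f hf) (fun a h => mf_atm f h (ha a h)) hx
    have h6 := abs_le_mf f hx
    rw [h5] at h6
    exact abs_eq_zero.mp (le_antisymm h6 (abs_nonneg _))
  ext x
  have h7 : x = (x ⊔ 0) - ((-x) ⊔ 0) := by
    have := posPart_sub_negPart x
    rw [posPart_def, negPart_def] at this
    exact this.symm
  rw [h7, map_sub, hmain _ le_sup_right, hmain _ le_sup_right, sub_zero]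
  rfl

end Pool.Agent.Results.MP_100021_an.DeterminedByAtoms
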